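import Mathlib
import Pool.Agent.H48.AS.Forms
import Pool.Graph.R_seed8.Y886.PPA

/-! Prime pairs `ℓ`, `ℓ + G j` with a bounded number of `j`, `G` divisible by all primes up to `W`: two of the numbers
`n + G i` are prime for many `n`, because all these numbers avoid the small primes with `n`. -/

set_option autoImplicit false

namespace Pool.Agent.H48.SS

open Finset Filter
open scoped Nat.Prime

/-- The totient of `n * j` when all prime factors of `j` divide `n`. -/
lemma totient_mul_rad (n j : ℕ) (hj : j ≠ 0) (h : ∀ p : ℕ, p.Prime → p ∣ j → p ∣ n) :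
    Nat.totient (n * j) = j * Nat.totient n := by
  induction j using induction_on_primes with
  | zero => exact absurd rfl hj
  | one => rw [mul_one, one_mul]
  | prime_mul p a hp ih =>
    have hp' : p.Prime := hp
    have ha : a ≠ 0 := by
      rintro rfl
      exact hj (mul_zero p)
    have h1 : n * (p * a) = p * (n * a) := by ring
    have h2 : p ∣ n := h p hp' (Dvd.intro _ rfl)
    rw [h1, Nat.totient_mul_of_prime_of_dvd hp' (Dvd.dvd.mul_right h2 a),
      ih ha (fun r hr hra => h r hr (Dvd.dvd.mul_left hra p))]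
    ring

/-- the product of the primes up to `W` -/
noncomputable def P (W : ℕ) : ℕ := ∏ p ∈ (Finset.Icc 1 W).filter Nat.Prime, p

lemma P_pos (W : ℕ) : 0 < P W := by
  unfold P
  exact prod_pos fun p hp => (mem_filter.1 hp).2.pos

lemma P_eq (W : ℕ) : P W = primorial W := by
  unfold P primorial
  apply prod_congr _ fun _ _ => rfl
  ext p
  simp only [mem_filter, mem_Icc, mem_range, Nat.lt_succ_iff]
  constructor
  · rintro ⟨⟨-, h1⟩, h2⟩
    exact ⟨h1, h2⟩
  · rintro ⟨h1, h2⟩
    exact ⟨⟨h2.one_lt.le, h1⟩, h2⟩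

lemma P_le (W : ℕ) : P W ≤ 4 ^ W := by
  rw [P_eq]
  exact primorial_le_four_pow W

lemma dvd_P {W p : ℕ} (hp : p.Prime) (h : p ≤ W) : p ∣ P W := by
  unfold P
  exact dvd_prod_of_mem (fun p => p) (mem_filter.2 ⟨mem_Icc.2 ⟨hp.one_lt.le, h⟩, hp⟩)

lemma P_primeFactors (W : ℕ) : (P W).primeFactors = (Finset.Icc 1 W).filter Nat.Prime := by
  unfold P
  exact Nat.primeFactors_prod fun p hp => (mem_filter.1 hp).2

lemma of_dvd_P {W p : ℕ} (hp : p.Prime) (h : p ∣ P W) : p ≤ W := by
  have : p ∈ (P W).primeFactors := Nat.mem_primeFactors.2 ⟨hp, h, (P_pos W).ne'⟩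
  rw [P_primeFactors, mem_filter, mem_Icc] at this
  exact this.1.2

/-- Mertens' bound for the proportion of the numbers without prime factors up to `W` -/
lemma phi_P : ∃ C : ℝ, 0 < C ∧ ∀ W : ℕ, 3 ≤ W → ((P W).totient : ℝ) ≤ C * P W / Real.log W := by
  obtain ⟨C, hC⟩ := Pool.Agent.Helper256.KM.mertens_inv
  refine ⟨Real.exp C, Real.exp_pos _, fun W hW => ?_⟩
  have h1 := (abs_le.1 (hC W hW)).1
  have hlog : 0 < Real.log W := Real.log_pos (by exact_mod_cast (by omega : 1 < W))
  have h2 : ((P W).totient : ℝ) = P W * ∏ p ∈ (Finset.Icc 1 W).filter Nat.Prime, (1 - (p : ℝ)⁻¹) := by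
    have h3 := Nat.totient_eq_mul_prod_factors (P W)
    rw [P_primeFactors] at h3
    have h4 : (((P W).totient : ℚ) : ℝ) = ((P W * ∏ p ∈ (Finset.Icc 1 W).filter Nat.Prime, (1 - (p : ℚ)⁻¹) : ℚ) : ℝ) := by
      rw [h3]
    push_cast at h4
    exact h4
  have h3 : ∏ p ∈ (Finset.Icc 1 W).filter Nat.Prime, (1 - (p : ℝ)⁻¹) ≤
      Real.exp (- ∑ p ∈ (Finset.Icc 1 W).filter Nat.Prime, (1 : ℝ) / p) := by
    rw [← sum_neg_distrib, Real.exp_sum]
    refine prod_le_prod (fun p hp => ?_) (fun p hp => ?_)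
    · have h4 : (1 : ℝ) ≤ p := by exact_mod_cast (mem_filter.1 hp).2.one_lt.le
      rw [sub_nonneg]
      exact inv_le_one_of_one_le₀ h4
    · have := Real.add_one_le_exp (-((1 : ℝ) / p))
      rw [one_div] at this ⊢
      linarith
  have h4 : Real.exp (- ∑ p ∈ (Finset.Icc 1 W).filter Nat.Prime, (1 : ℝ) / p) ≤ Real.exp C / Real.log W := by
    rw [le_div_iff₀ hlog]
    calc Real.exp (- ∑ p ∈ (Finset.Icc 1 W).filter Nat.Prime, (1 : ℝ) / p) * Real.log W
        = Real.exp (- ∑ p ∈ (Finset.Icc 1 W).filter Nat.Prime, (1 : ℝ) / p + Real.log (Real.log W)) := by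
          rw [Real.exp_add, Real.exp_log hlog]
      _ ≤ Real.exp C := Real.exp_le_exp.2 (by linarith)
  rw [h2]
  calc (P W : ℝ) * ∏ p ∈ (Finset.Icc 1 W).filter Nat.Prime, (1 - (p : ℝ)⁻¹) ≤
      P W * (Real.exp C / Real.log W) := by
        refine mul_le_mul_of_nonneg_left (h3.trans h4) (Nat.cast_nonneg _)
    _ = _ := by ring

/-- the primes `ℓ ≤ N` with `ℓ + h` prime -/
def pairs (N h : ℕ) : Finset ℕ := (Icc 1 N).filter (fun l => l.Prime ∧ (l + h).Prime)

/-- the `n ≤ N` with `n + h` a prime greater than `W` -/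
def AA (N W h : ℕ) : Finset ℕ := (Icc 1 N).filter (fun n => (n + h).Prime ∧ W < n + h)

lemma card_AA (N W h : ℕ) : Nat.primeCounting N ≤ (AA N W h).card + h + W := by
  classical
  have h1 : Nat.primeCounting N = ((Icc 1 N).filter Nat.Prime).card := by
    rw [Nat.primeCounting, Nat.primeCounting', Nat.count_eq_card_filter_range]
    congr 1
    ext p
    simp only [mem_filter, mem_range, mem_Icc]
    constructor
    · rintro ⟨h1, h2⟩
      exact ⟨⟨h2.one_lt.le, by omega⟩, h2⟩
    · rintro ⟨⟨-, h1⟩, h2⟩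
      exact ⟨by omega, h2⟩
  rw [h1]
  have h2 : (Icc 1 N).filter Nat.Prime ⊆ (AA N W h).image (fun n => n + h) ∪ Icc 1 (h + W) := by
    intro p hp
    rw [mem_filter, mem_Icc] at hp
    rw [mem_union]
    by_cases hph : p ≤ h + W
    · right
      rw [mem_Icc]
      exact ⟨hp.1.1, hph⟩
    · left
      rw [mem_image]
      refine ⟨p - h, ?_, by omega⟩
      unfold AA
      rw [mem_filter, mem_Icc]
      have h3 : p - h + h = p := by omega
      rw [h3]
      exact ⟨⟨by omega, by omega⟩, hp.2, by omega⟩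
  have h3 := card_le_card h2
  have h4 := card_union_le ((AA N W h).image (fun n => n + h)) (Icc 1 (h + W))
  have h5 : ((AA N W h).image (fun n => n + h)).card ≤ (AA N W h).card := card_image_le
  rw [Nat.card_Icc] at h4
  omega

/-- **Pigeonhole**: for some `j < W` there are many prime pairs with the difference `G j`. -/
theorem pigeon : ∃ C₁ c : ℝ, 0 < C₁ ∧ 0 < c ∧ ∀ᶠ N : ℕ in atTop, ∀ W G : ℕ, 3 ≤ W →
    C₁ * Real.log N ≤ W * Real.log W → P W ∣ G → (G : ℝ) * W ≤ Real.sqrt N → P W ≤ N → 0 < G →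
    ∃ j, 1 ≤ j ∧ j < W ∧ c * N * Real.log W / Real.log N ^ 2 ≤ ((pairs (2 * N) (G * j)).card : ℝ) := by
  classical
  obtain ⟨C, hC, hphi⟩ := phi_P
  refine ⟨16 * C, 1 / (128 * C), by positivity, by positivity, ?_⟩
  have tN : Tendsto (fun N : ℕ => (N : ℝ)) atTop atTop := tendsto_natCast_atTop_atTop
  have tL : Tendsto (fun N : ℕ => Real.log (N : ℝ)) atTop atTop := Real.tendsto_log_atTop.comp tN
  have e1 : ∀ᶠ N : ℕ in atTop, 8 * Real.sqrt N * Real.log N ≤ N := by
    have h := ((isLittleO_log_rpow_atTop (by norm_num : (0 : ℝ) < 1 / 2)).comp_tendsto tN).bound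
      (by norm_num : (0 : ℝ) < 1 / 8)
    filter_upwards [h, eventually_ge_atTop 1] with N hN hN1
    have hN1' : (1 : ℝ) ≤ N := by exact_mod_cast hN1
    have hl := Real.log_nonneg hN1'
    simp only [Function.comp_def] at hN
    rw [Real.norm_of_nonneg hl, Real.norm_of_nonneg (by positivity), ← Real.sqrt_eq_rpow] at hN
    have h2 : Real.sqrt N * Real.sqrt N = N := Real.mul_self_sqrt (by linarith)
    have h3 : 0 ≤ Real.sqrt (N : ℝ) := Real.sqrt_nonneg _
    nlinarith
  filter_upwards [Pool.Agent.Y886.PP.pi_lower, e1, tL.eventually_ge_atTop 8, eventually_ge_atTop 16] with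
    N hpi hsq hL hN16 W G hW hWN hPG hGW hPN hG0
  have hN16' : (16 : ℝ) ≤ N := by exact_mod_cast hN16
  have hN0 : (0 : ℝ) < N := by linarith
  have hLN : 0 < Real.log (N : ℝ) := by linarith
  have hWr : (3 : ℝ) ≤ W := by exact_mod_cast hW
  have hlW : 0 < Real.log (W : ℝ) := Real.log_pos (by linarith)
  have hG1 : (1 : ℝ) ≤ G := by exact_mod_cast hG0
  have hsqN : Real.sqrt N ≤ N := by
    have h1 : 1 ≤ Real.sqrt (N : ℝ) := by
      rw [Real.one_le_sqrt]; linarith
    have h2 : Real.sqrt N * Real.sqrt N = N := Real.mul_self_sqrt hN0.le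
    nlinarith
  have hWG : (W : ℝ) ≤ G * W := by nlinarith
  -- the rough numbers
  obtain ⟨R, hR⟩ : ∃ R : Finset ℕ, R = (Ico 1 (1 + N)).filter (fun n => (P W).Coprime n) := ⟨_, rfl⟩
  have hP0 : (0 : ℝ) < P W := by exact_mod_cast P_pos W
  have hRc : (R.card : ℝ) ≤ 2 * C * N / Real.log W := by
    have h1 := Nat.Ico_filter_coprime_le (a := P W) 1 N (P_pos W).ne'
    rw [← hR] at h1
    have h2 : (R.card : ℝ) ≤ (P W).totient * (2 * (N / P W)) := by
      have h3 : ((N / P W + 1 : ℕ) : ℝ) ≤ 2 * ((N : ℝ) / P W) := by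
        push_cast
        have h4 : ((N / P W : ℕ) : ℝ) ≤ (N : ℝ) / P W := Nat.cast_div_le
        have h5 : (1 : ℝ) ≤ (N : ℝ) / P W := by
          rw [le_div_iff₀ hP0, one_mul]
          exact_mod_cast hPN
        linarith
      calc (R.card : ℝ) ≤ (((P W).totient * (N / P W + 1) : ℕ) : ℝ) := by exact_mod_cast h1
        _ = (P W).totient * ((N / P W + 1 : ℕ) : ℝ) := by push_cast; ring
        _ ≤ _ := mul_le_mul_of_nonneg_left h3 (Nat.cast_nonneg _)
    refine h2.trans ?_
    calc ((P W).totient : ℝ) * (2 * (N / P W)) ≤ (C * P W / Real.log W) * (2 * (N / P W)) :=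
          mul_le_mul_of_nonneg_right (hphi W hW) (by positivity)
      _ = 2 * C * N / Real.log W := by field_simp
  have hAR : ∀ i, AA N W (G * i) ⊆ R := by
    intro i n hn
    unfold AA at hn
    rw [mem_filter, mem_Icc] at hn
    rw [hR, mem_filter, mem_Ico]
    refine ⟨by omega, ?_⟩
    rw [Nat.coprime_comm]
    apply Nat.Coprime.symm
    rw [Nat.coprime_iff_gcd_eq_one]
    by_contra hne
    obtain ⟨p, hp, hpd⟩ := Nat.exists_prime_and_dvd hne
    have h1 : p ∣ P W := hpd.trans (Nat.gcd_dvd_left _ _)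
    have h2 : p ∣ n := hpd.trans (Nat.gcd_dvd_right _ _)
    have h3 : p ∣ n + G * i := Nat.dvd_add h2 ((h1.trans hPG).mul_right i)
    have h4 : p = n + G * i := (Nat.prime_dvd_prime_iff_eq hp hn.2.1).1 h3
    have h5 := of_dvd_P hp h1
    omega
  obtain ⟨a, ha⟩ : ∃ a : ℕ → ℝ, ∀ n, a n = (((range W).filter (fun i => n ∈ AA N W (G * i))).card : ℝ) :=
    ⟨_, fun _ => rfl⟩
  obtain ⟨S, hS⟩ : ∃ S : ℝ, S = ∑ i ∈ range W, ((AA N W (G * i)).card : ℝ) := ⟨_, rfl⟩
  have hSa : ∑ n ∈ R, a n = S := by
    rw [hS]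
    have h1 : ∀ n, a n = ∑ i ∈ range W, (if n ∈ AA N W (G * i) then (1 : ℝ) else 0) := by
      intro n
      rw [ha n, card_filter]
      push_cast
      rfl
    simp only [h1]
    rw [sum_comm]
    refine sum_congr rfl fun i _ => ?_
    rw [← sum_filter, sum_const, nsmul_eq_mul, mul_one]
    congr 2
    ext n
    rw [mem_filter]
    exact ⟨fun h => h.2, fun h => ⟨hAR i h, h⟩⟩
  have hSlow : W * (N / (4 * Real.log N)) ≤ S := by
    rw [hS]
    have h1 : ∀ i ∈ range W, (N : ℝ) / (4 * Real.log N) ≤ ((AA N W (G * i)).card : ℝ) := by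
      intro i hi
      rw [mem_range] at hi
      have h2 : (Nat.primeCounting N : ℝ) ≤ (AA N W (G * i)).card + G * i + W := by
        exact_mod_cast card_AA N W (G * i)
      have h3 : (G : ℝ) * i ≤ G * W := by
        have : (i : ℝ) ≤ W := by exact_mod_cast hi.le
        gcongr
      have h4 : 2 * Real.sqrt N ≤ N / (4 * Real.log N) := by
        rw [le_div_iff₀ (by positivity)]
        linarith
      have h5 : (N : ℝ) / (2 * Real.log N) = N / (4 * Real.log N) + N / (4 * Real.log N) := by
        field_simp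
        norm_num
      linarith
    calc (W : ℝ) * (N / (4 * Real.log N)) = ∑ _i ∈ range W, (N : ℝ) / (4 * Real.log N) := by
          rw [sum_const, card_range, nsmul_eq_mul]
      _ ≤ _ := sum_le_sum h1
  have hS0 : 0 < S := lt_of_lt_of_le (by positivity) hSlow
  have hR0 : 0 < (R.card : ℝ) := by
    by_contra h
    have h1 : (R.card : ℝ) = 0 := le_antisymm (not_lt.1 h) (Nat.cast_nonneg _)
    have h2 : R = ∅ := by
      rw [← card_eq_zero]
      exact_mod_cast h1
    rw [h2, sum_empty] at hSa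
    linarith
  -- the second moment
  obtain ⟨T, hT⟩ : ∃ T : ℕ → ℝ, ∀ j, T j = ((pairs (2 * N) (G * j)).card : ℝ) := ⟨_, fun _ => rfl⟩
  by_contra hcon
  push Not at hcon
  obtain ⟨τ, hτ⟩ : ∃ τ : ℝ, τ = 1 / (128 * C) * N * Real.log W / Real.log N ^ 2 := ⟨_, rfl⟩
  have hτ0 : 0 < τ := by rw [hτ]; positivity
  have hTτ : ∀ j, 1 ≤ j → j < W → T j ≤ τ := by
    intro j h1 h2
    rw [hT, hτ]
    exact (hcon j h1 h2).le
  have hsecond : ∑ n ∈ R, a n ^ 2 ≤ S + W ^ 2 * τ := by
    have h1 : ∀ n, a n ^ 2 = ∑ i ∈ range W, ∑ i' ∈ range W,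
        (if n ∈ AA N W (G * i) ∧ n ∈ AA N W (G * i') then (1 : ℝ) else 0) := by
      intro n
      rw [ha n, card_filter]
      push_cast
      rw [sq, sum_mul_sum]
      refine sum_congr rfl fun i _ => sum_congr rfl fun i' _ => ?_
      by_cases h2 : n ∈ AA N W (G * i) <;> by_cases h3 : n ∈ AA N W (G * i') <;> simp [h2, h3]
    simp only [h1]
    rw [sum_comm]
    have h2 : ∀ i ∈ range W, ∑ n ∈ R, ∑ i' ∈ range W,
        (if n ∈ AA N W (G * i) ∧ n ∈ AA N W (G * i') then (1 : ℝ) else 0) ≤
        ((AA N W (G * i)).card : ℝ) + W * τ := by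
      intro i hi
      rw [mem_range] at hi
      rw [sum_comm]
      have h3 : ∀ i' ∈ range W, ∑ n ∈ R, (if n ∈ AA N W (G * i) ∧ n ∈ AA N W (G * i') then (1 : ℝ) else 0) ≤
          (if i' = i then ((AA N W (G * i)).card : ℝ) else 0) + τ := by
        intro i' hi'
        rw [mem_range] at hi'
        rw [← sum_filter, sum_const, nsmul_eq_mul, mul_one]
        by_cases hii : i' = i
        · rw [if_pos hii]
          have h4 : (R.filter (fun n => n ∈ AA N W (G * i) ∧ n ∈ AA N W (G * i'))).card ≤ (AA N W (G * i)).card :=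
            card_le_card fun n hn => (mem_filter.1 hn).2.1
          have h5 : ((R.filter (fun n => n ∈ AA N W (G * i) ∧ n ∈ AA N W (G * i'))).card : ℝ) ≤
            (AA N W (G * i)).card := by exact_mod_cast h4
          linarith
        · rw [if_neg hii, zero_add]
          -- two different indices
          have key : ∀ s t : ℕ, s < t → t < W →
              ((R.filter (fun n => n ∈ AA N W (G * s) ∧ n ∈ AA N W (G * t))).card : ℝ) ≤ τ := by
            intro s t hst ht
            refine le_trans ?_ (hTτ (t - s) (by omega) (by omega))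
            rw [hT, Nat.cast_le]
            apply card_le_card_of_injOn (fun n => n + G * s)
            · intro n hn
              rw [mem_coe, mem_filter] at hn
              obtain ⟨-, h4, h5⟩ := hn
              unfold AA at h4 h5
              rw [mem_filter, mem_Icc] at h4 h5
              unfold pairs
              rw [mem_coe, mem_filter, mem_Icc]
              have h6 : G * s + G * (t - s) = G * t := by
                rw [← mul_add]
                congr 1
                omega
              have h7 : G * s ≤ N := by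
                have h8 : ((G * s : ℕ) : ℝ) ≤ N := by
                  push_cast
                  have : (s : ℝ) ≤ W := by exact_mod_cast (by omega : s ≤ W)
                  calc (G : ℝ) * s ≤ G * W := by gcongr
                    _ ≤ Real.sqrt N := hGW
                    _ ≤ N := hsqN
                exact_mod_cast h8
              show (1 ≤ n + G * s ∧ n + G * s ≤ 2 * N) ∧ (n + G * s).Prime ∧ (n + G * s + G * (t - s)).Prime
              refine ⟨⟨by omega, by omega⟩, h4.2.1, ?_⟩
              have h9 : n + G * s + G * (t - s) = n + G * t := by omega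
              rw [h9]
              exact h5.2.1
            · intro n _ n' _ h
              exact Nat.add_right_cancel h
          rcases lt_or_gt_of_ne hii with h4 | h4
          · have := key i' i h4 hi
            refine le_trans (le_of_eq ?_) this
            congr 2
            ext n
            simp only [mem_filter]
            tauto
          · exact key i i' h4 hi'
      refine (sum_le_sum h3).trans ?_
      rw [sum_add_distrib, sum_ite_eq' (range W) i, if_pos (mem_range.2 hi), sum_const, card_range, nsmul_eq_mul]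
    refine (sum_le_sum h2).trans ?_
    rw [sum_add_distrib, ← hS, sum_const, card_range, nsmul_eq_mul]
    have : (W : ℝ) * (W * τ) = W ^ 2 * τ := by ring
    linarith
  have hcs : S ^ 2 ≤ R.card * (S + W ^ 2 * τ) := by
    calc S ^ 2 = (∑ n ∈ R, a n) ^ 2 := by rw [hSa]
      _ ≤ R.card * ∑ n ∈ R, a n ^ 2 := sq_sum_le_card_mul_sum_sq
      _ ≤ _ := mul_le_mul_of_nonneg_left hsecond hR0.le
  -- `2 |R| ≤ S`
  have hRS : 2 * (R.card : ℝ) ≤ S := by
    refine le_trans ?_ hSlow
    calc 2 * (R.card : ℝ) ≤ 2 * (2 * C * N / Real.log W) := by linarith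
      _ = (16 * C * Real.log N) * (N / (4 * Real.log N * Real.log W)) := by field_simp; ring
      _ ≤ (W * Real.log W) * (N / (4 * Real.log N * Real.log W)) :=
          mul_le_mul_of_nonneg_right hWN (by positivity)
      _ = W * (N / (4 * Real.log N)) := by field_simp
  have h1 : S ^ 2 ≤ 2 * (R.card * (W ^ 2 * τ)) := by nlinarith
  have h2 : R.card * (W ^ 2 * τ) ≤ (2 * C * N / Real.log W) * (W ^ 2 * τ) :=
    mul_le_mul_of_nonneg_right hRc (by positivity)
  have h3 : (W * (N / (4 * Real.log N))) ^ 2 ≤ S ^ 2 := pow_le_pow_left₀ (by positivity) hSlow 2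
  have h4 : 2 * ((2 * C * N / Real.log W) * (W ^ 2 * τ)) = (1 / 2) * (W * (N / (4 * Real.log N))) ^ 2 := by
    rw [hτ]
    field_simp
    ring
  have h5 : 0 < (W * (N / (4 * Real.log N))) ^ 2 := by positivity
  linarith

end Pool.Agent.H48.SS
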