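import Mathlib
import Pool.Agent.H48.SS.Core

/-! Many integers with a representation by a prime pair whose difference is a totient. -/

set_option autoImplicit false

namespace Pool.Agent.H48.SS

open Finset Filter Pool.Agent.W262.RK Pool.Agent.H48.AS

/-- the number of the representations of `m` by the elements `k` of `K` -/
noncomputable def reps (f : ℕ → ℕ) (K : Finset ℕ) (m : ℕ) : ℕ :=
  {k : ℕ | k ∈ K ∧ ∃ l : ℕ, l.Prime ∧ (l + Nat.totient k).Prime ∧ m = l + f k}.ncard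

/-- the numbers `l + x` with `l ≤ 2 N` and `l`, `l + a` prime -/
def sh (N a x : ℕ) : Finset ℕ := (pairs (2 * N) a).image (fun l => l + x)

/-- the pair bound for two non-degenerate indices -/
lemma pair_bound : ∃ C : ℝ, 0 < C ∧ ∀ᶠ N : ℕ in atTop, ∀ a b x y : ℕ, 0 < a → 0 < b → a ≤ N → b ≤ N → x ≤ N → y ≤ N →
    (x : ℤ) - y ≠ 0 → (x : ℤ) - y + b ≠ 0 → (x : ℤ) - y - a ≠ 0 → (x : ℤ) - y + b - a ≠ 0 →
    ((sh N a x ∩ sh N b y).card : ℝ) ≤
      C * N * Real.log (Real.log N) ^ 4 / Real.log N ^ 4 := by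
  classical
  obtain ⟨C, hC, hf⟩ := forms 4
  have tN : Tendsto (fun N : ℕ => (N : ℝ)) atTop atTop := tendsto_natCast_atTop_atTop
  have tL : Tendsto (fun N : ℕ => Real.log (N : ℝ)) atTop atTop := Real.tendsto_log_atTop.comp tN
  have htend : Tendsto (fun x : ℕ => 2 * x) atTop atTop :=
    tendsto_atTop_mono (fun x => by omega : ∀ x : ℕ, x ≤ 2 * x) tendsto_id
  refine ⟨32 * C, by positivity, ?_⟩
  filter_upwards [htend.eventually hf, tL.eventually_ge_atTop 8, eventually_ge_atTop 4] with N hx hL hN4 a b x y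
    ha0 hb0 ha hb hx1 hy1 d1 d2 d3 d4
  have hN4' : (4 : ℝ) ≤ N := by exact_mod_cast hN4
  have hlx0 : 0 < Real.log (N : ℝ) := by linarith
  have hc2 : ((2 * N : ℕ) : ℝ) = 2 * N := by push_cast; ring
  have hLN : Real.log N ≤ Real.log ((2 * N : ℕ) : ℝ) := Real.log_le_log (by linarith) (by rw [hc2]; linarith)
  have hLN2 : Real.log ((2 * N : ℕ) : ℝ) ≤ 2 * Real.log N := by
    have h1 : Real.log ((2 * N : ℕ) : ℝ) ≤ Real.log ((N : ℝ) ^ 2) :=
      Real.log_le_log (by rw [hc2]; linarith) (by rw [hc2]; nlinarith)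
    rwa [Real.log_pow] at h1
  have hll1 : 1 ≤ Real.log (Real.log N) := by
    rw [Real.le_log_iff_exp_le hlx0]
    have := Real.exp_one_lt_d9
    linarith
  have hllN : Real.log (Real.log ((2 * N : ℕ) : ℝ)) ≤ 2 * Real.log (Real.log N) := by
    have h1 : Real.log (Real.log ((2 * N : ℕ) : ℝ)) ≤ Real.log (Real.log N ^ 2) :=
      Real.log_le_log (by linarith) (by nlinarith)
    rwa [Real.log_pow] at h1
  have hllN0 : 0 ≤ Real.log (Real.log ((2 * N : ℕ) : ℝ)) := Real.log_nonneg (by linarith)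
  obtain ⟨d, hd⟩ : ∃ d : ℤ, d = (x : ℤ) - y := ⟨_, rfl⟩
  rw [← hd] at d1 d2 d3 d4
  obtain ⟨M, hM⟩ : ∃ M : ℕ, M = ((a : ℤ) * d * (d + b) * (d - a) * (d + b - a) * b).natAbs := ⟨_, rfl⟩
  have hx' := hx ![1, 1, 1, 1] ![0, (a : ℤ), d, d + b]
    (by
      intro j
      fin_cases j <;> simp) M
    (by
      rw [hM, Int.natAbs_ne_zero]
      refine mul_ne_zero (mul_ne_zero (mul_ne_zero (mul_ne_zero (mul_ne_zero ?_ d1) d2) d3) d4) ?_
      all_goals omega)
    (by
      have b1 : (a : ℤ).natAbs ≤ 2 * (2 * N) := by omega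
      have b2 : d.natAbs ≤ 2 * (2 * N) := by omega
      have b3 : (d + b).natAbs ≤ 2 * (2 * N) := by omega
      have b4 : (d - a).natAbs ≤ 2 * (2 * N) := by omega
      have b5 : (d + b - a).natAbs ≤ 2 * (2 * N) := by omega
      have b6 : (b : ℤ).natAbs ≤ 2 * (2 * N) := by omega
      have b7 : M ≤ 2 * (2 * N) * (2 * (2 * N)) * (2 * (2 * N)) * (2 * (2 * N)) * (2 * (2 * N)) * (2 * (2 * N)) := by
        rw [hM, Int.natAbs_mul, Int.natAbs_mul, Int.natAbs_mul, Int.natAbs_mul, Int.natAbs_mul]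
        gcongr
      have b8 : 2 * (2 * N) * (2 * (2 * N)) * (2 * (2 * N)) * (2 * (2 * N)) * (2 * (2 * N)) * (2 * (2 * N)) =
        2 ^ 6 * (2 * N) ^ 6 := by ring
      have b9 : 2 ^ 6 * (2 * N) ^ 6 ≤ (2 * N) ^ 6 * (2 * N) ^ 6 := Nat.mul_le_mul_right _ (Nat.pow_le_pow_left (by omega) 6)
      have b10 : (2 * N) ^ 6 * (2 * N) ^ 6 ≤ (2 * N) ^ 20 := by
        rw [← pow_add]
        exact Nat.pow_le_pow_right (by omega) (by norm_num)
      omega)
    (by
      have hdvd : ∀ z : ℤ, z ∣ (a : ℤ) * d * (d + b) * (d - a) * (d + b - a) * b → z ∣ (M : ℤ) := by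
        intro z hz
        rw [hM]
        exact Int.dvd_natAbs.2 hz
      intro j l hjl
      apply hdvd
      have r01 : Res ![1, 1, 1, 1] ![0, (a : ℤ), d, d + b] (0 : Fin 4) 1 = a := by
        simp [Res]
      have r02 : Res ![1, 1, 1, 1] ![0, (a : ℤ), d, d + b] (0 : Fin 4) 2 = d := by
        simp [Res]
      have r03 : Res ![1, 1, 1, 1] ![0, (a : ℤ), d, d + b] (0 : Fin 4) 3 = d + b := by
        simp [Res]
      have r12 : Res ![1, 1, 1, 1] ![0, (a : ℤ), d, d + b] (1 : Fin 4) 2 = d - a := by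
        simp [Res]
      have r13 : Res ![1, 1, 1, 1] ![0, (a : ℤ), d, d + b] (1 : Fin 4) 3 = d + b - a := by
        simp [Res]
      have r23 : Res ![1, 1, 1, 1] ![0, (a : ℤ), d, d + b] (2 : Fin 4) 3 = b := by
        simp [Res]
      have anti : ∀ i i' : Fin 4, Res ![1, 1, 1, 1] ![0, (a : ℤ), d, d + b] i i' =
          - Res ![1, 1, 1, 1] ![0, (a : ℤ), d, d + b] i' i := by
        intro i i'
        unfold Res
        ring
      have c1 : (a : ℤ) ∣ (a : ℤ) * d * (d + b) * (d - a) * (d + b - a) * b :=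
        ⟨d * (d + b) * (d - a) * (d + b - a) * b, by ring⟩
      have c2 : d ∣ (a : ℤ) * d * (d + b) * (d - a) * (d + b - a) * b :=
        ⟨a * (d + b) * (d - a) * (d + b - a) * b, by ring⟩
      have c3 : d + b ∣ (a : ℤ) * d * (d + b) * (d - a) * (d + b - a) * b :=
        ⟨a * d * (d - a) * (d + b - a) * b, by ring⟩
      have c4 : d - a ∣ (a : ℤ) * d * (d + b) * (d - a) * (d + b - a) * b :=
        ⟨a * d * (d + b) * (d + b - a) * b, by ring⟩
      have c5 : d + b - a ∣ (a : ℤ) * d * (d + b) * (d - a) * (d + b - a) * b :=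
        ⟨a * d * (d + b) * (d - a) * b, by ring⟩
      have c6 : (b : ℤ) ∣ (a : ℤ) * d * (d + b) * (d - a) * (d + b - a) * b :=
        ⟨a * d * (d + b) * (d - a) * (d + b - a), by ring⟩
      fin_cases j <;> fin_cases l
      · exact absurd rfl hjl
      · exact r01.symm ▸ c1
      · exact r02.symm ▸ c2
      · exact r03.symm ▸ c3
      · rw [anti]; exact (Int.neg_dvd).2 (r01.symm ▸ c1)
      · exact absurd rfl hjl
      · exact r12.symm ▸ c4
      · exact r13.symm ▸ c5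
      · rw [anti]; exact (Int.neg_dvd).2 (r02.symm ▸ c2)
      · rw [anti]; exact (Int.neg_dvd).2 (r12.symm ▸ c4)
      · exact absurd rfl hjl
      · exact r23.symm ▸ c6
      · rw [anti]; exact (Int.neg_dvd).2 (r03.symm ▸ c3)
      · rw [anti]; exact (Int.neg_dvd).2 (r13.symm ▸ c5)
      · rw [anti]; exact (Int.neg_dvd).2 (r23.symm ▸ c6)
      · exact absurd rfl hjl)
  have h1 : ((sh N a x ∩ sh N b y).card : ℝ) ≤
      ((Icc 1 (2 * N)).filter (fun t : ℕ => ∀ j, ((![1, 1, 1, 1] : Fin 4 → ℤ) j * (t : ℤ) +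
        (![0, (a : ℤ), d, d + b] : Fin 4 → ℤ) j).toNat.Prime)).card := by
    rw [Nat.cast_le]
    apply card_le_card_of_injOn (fun m => m - x)
    · intro m hm
      rw [mem_coe, mem_inter] at hm
      unfold sh at hm
      rw [mem_image, mem_image] at hm
      obtain ⟨⟨l, hl, hml⟩, l', hl', hml'⟩ := hm
      unfold pairs at hl hl'
      rw [mem_filter, mem_Icc] at hl hl'
      obtain ⟨⟨g1, g2⟩, g3, g4⟩ := hl
      obtain ⟨⟨g5, g6⟩, g7, g8⟩ := hl'
      have hmx : m - x = l := by omega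
      show m - x ∈ _
      rw [hmx, mem_coe, mem_filter, mem_Icc]
      refine ⟨⟨g1, g2⟩, ?_⟩
      have j0 : (1 : ℤ) * (l : ℤ) + 0 = ((l : ℕ) : ℤ) := by ring
      have j1 : (1 : ℤ) * (l : ℤ) + (a : ℤ) = ((l + a : ℕ) : ℤ) := by push_cast; ring
      have j2 : (1 : ℤ) * (l : ℤ) + d = ((l' : ℕ) : ℤ) := by
        rw [hd]
        clear hx hf hM
        omega
      have j3 : (1 : ℤ) * (l : ℤ) + (d + b) = ((l' + b : ℕ) : ℤ) := by
        rw [hd]
        clear hx hf hM
        push_cast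
        omega
      have i0 : ((1 : ℤ) * (l : ℤ) + 0).toNat = l := by rw [j0]; exact Int.toNat_natCast _
      have i1 : ((1 : ℤ) * (l : ℤ) + (a : ℤ)).toNat = l + a := by rw [j1]; exact Int.toNat_natCast _
      have i2 : ((1 : ℤ) * (l : ℤ) + d).toNat = l' := by rw [j2]; exact Int.toNat_natCast _
      have i3 : ((1 : ℤ) * (l : ℤ) + (d + b)).toNat = l' + b := by rw [j3]; exact Int.toNat_natCast _
      intro j
      fin_cases j
      · exact i0.symm ▸ g3
      · exact i1.symm ▸ g4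
      · exact i2.symm ▸ g7
      · exact i3.symm ▸ g8
    · intro m hm m' hm' h
      rw [mem_coe, mem_inter] at hm hm'
      unfold sh at hm hm'
      rw [mem_image, mem_image] at hm hm'
      obtain ⟨⟨l, -, hml⟩, -⟩ := hm
      obtain ⟨⟨l', -, hml'⟩, -⟩ := hm'
      have h' : m - x = m' - x := h
      omega
  refine h1.trans (hx'.trans ?_)
  rw [hc2] at *
  have h5 : Real.log (Real.log (2 * N)) ^ 4 ≤ 16 * Real.log (Real.log N) ^ 4 := by
    have := pow_le_pow_left₀ hllN0 hllN 4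
    have e : (2 * Real.log (Real.log N)) ^ 4 = 16 * Real.log (Real.log N) ^ 4 := by ring
    linarith
  have h6 : Real.log N ^ 4 ≤ Real.log (2 * N) ^ 4 := pow_le_pow_left₀ hlx0.le hLN 4
  calc C * (2 * N) * Real.log (Real.log (2 * N)) ^ 4 / Real.log (2 * N) ^ 4 ≤
      C * (2 * N) * (16 * Real.log (Real.log N) ^ 4) / Real.log N ^ 4 := by gcongr
    _ = _ := by ring

end Pool.Agent.H48.SS
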