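import Mathlib
import Pool.Agent.H48.SS.Many

/-! The second moment. -/

set_option autoImplicit false

namespace Pool.Agent.H48.SS

open Finset Filter

/-- the number of the indices `u ∈ U` which represent `m` -/
def rr (N : ℕ) (U : Finset ℕ) (a x : ℕ → ℕ) (m : ℕ) : ℕ := (U.filter (fun u => m ∈ sh N (a u) (x u))).card

/-- two degenerate indices -/
def Deg (a x : ℕ → ℕ) (u v : ℕ) : Prop :=
  (x u : ℤ) - x v = 0 ∨ (x u : ℤ) - x v + a v = 0 ∨ (x u : ℤ) - x v - a u = 0 ∨ (x u : ℤ) - x v + a v - a u = 0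

instance (a x : ℕ → ℕ) (u v : ℕ) : Decidable (Deg a x u v) := by
  unfold Deg
  infer_instance

lemma card_sh (N a x : ℕ) : (sh N a x).card = (pairs (2 * N) a).card := by
  unfold sh
  exact card_image_of_injective _ fun l l' h => Nat.add_right_cancel h

lemma moment {N : ℕ} (U : Finset ℕ) (a x : ℕ → ℕ) (s β D τ : ℝ) (hs0 : 0 ≤ s) (hβ : 0 ≤ β)
    (hx : ∀ u ∈ U, x u ≤ N) (hs : ∀ u ∈ U, s ≤ ((pairs (2 * N) (a u)).card : ℝ))
    (hpair : ∀ u ∈ U, ∀ v ∈ U, ¬ Deg a x u v → ((sh N (a u) (x u) ∩ sh N (a v) (x v)).card : ℝ) ≤ β)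
    (hdeg : ∀ u ∈ U, ((U.filter (fun v => Deg a x u v)).card : ℝ) ≤ D)
    (hτ : 3 * N * τ ≤ U.card * s / 2) (hτ0 : 0 ≤ τ) :
    (U.card * s / 2) ^ 2 ≤ (((Icc 1 (3 * N)).filter (fun m => τ ≤ (rr N U a x m : ℝ))).card : ℝ) *
      (U.card ^ 2 * β + U.card * (D * (2 * N))) := by
  classical
  have hsub : ∀ u ∈ U, sh N (a u) (x u) ⊆ Icc 1 (3 * N) := by
    intro u hu m hm
    unfold sh pairs at hm
    rw [mem_image] at hm
    obtain ⟨l, hl, hlm⟩ := hm
    rw [mem_filter, mem_Icc] at hl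
    have := hx u hu
    rw [mem_Icc]
    omega
  have hr : ∀ m, (rr N U a x m : ℝ) = ∑ u ∈ U, (if m ∈ sh N (a u) (x u) then (1 : ℝ) else 0) := by
    intro m
    unfold rr
    rw [card_filter]
    push_cast
    rfl
  have h1 : ∑ m ∈ Icc 1 (3 * N), (rr N U a x m : ℝ) = ∑ u ∈ U, ((sh N (a u) (x u)).card : ℝ) := by
    simp only [hr]
    rw [sum_comm]
    refine sum_congr rfl fun u hu => ?_
    rw [← sum_filter, sum_const, nsmul_eq_mul, mul_one]
    congr 2
    ext m
    rw [mem_filter]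
    exact ⟨fun h => h.2, fun h => ⟨hsub u hu h, h⟩⟩
  have h2 : U.card * s ≤ ∑ m ∈ Icc 1 (3 * N), (rr N U a x m : ℝ) := by
    rw [h1]
    calc (U.card : ℝ) * s = ∑ _u ∈ U, s := by rw [sum_const, nsmul_eq_mul]
      _ ≤ _ := sum_le_sum fun u hu => by rw [card_sh]; exact hs u hu
  have h3 : ∑ m ∈ Icc 1 (3 * N), (rr N U a x m : ℝ) ^ 2 ≤ U.card ^ 2 * β + U.card * (D * (2 * N)) := by
    have e1 : ∀ m, (rr N U a x m : ℝ) ^ 2 = ∑ u ∈ U, ∑ v ∈ U,
        (if m ∈ sh N (a u) (x u) ∩ sh N (a v) (x v) then (1 : ℝ) else 0) := by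
      intro m
      rw [hr m, sq, sum_mul_sum]
      refine sum_congr rfl fun u _ => sum_congr rfl fun v _ => ?_
      by_cases h2 : m ∈ sh N (a u) (x u) <;> by_cases h3 : m ∈ sh N (a v) (x v) <;> simp [h2, h3]
    simp only [e1]
    rw [sum_comm]
    have e2 : ∀ u ∈ U, ∑ m ∈ Icc 1 (3 * N), ∑ v ∈ U,
        (if m ∈ sh N (a u) (x u) ∩ sh N (a v) (x v) then (1 : ℝ) else 0) ≤ U.card * β + D * (2 * N) := by
      intro u hu
      rw [sum_comm]
      have e3 : ∀ v ∈ U, ∑ m ∈ Icc 1 (3 * N), (if m ∈ sh N (a u) (x u) ∩ sh N (a v) (x v) then (1 : ℝ) else 0) ≤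
          β + (if Deg a x u v then (2 * N : ℝ) else 0) := by
        intro v hv
        rw [← sum_filter, sum_const, nsmul_eq_mul, mul_one]
        have e4 : (((Icc 1 (3 * N)).filter (fun m => m ∈ sh N (a u) (x u) ∩ sh N (a v) (x v))).card : ℝ) ≤
            ((sh N (a u) (x u) ∩ sh N (a v) (x v)).card : ℝ) := by
          rw [Nat.cast_le]
          exact card_le_card fun m hm => (mem_filter.1 hm).2
        by_cases h : Deg a x u v
        · rw [if_pos h]
          have e5 : ((sh N (a u) (x u) ∩ sh N (a v) (x v)).card : ℝ) ≤ 2 * N := by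
            have e6 : (sh N (a u) (x u) ∩ sh N (a v) (x v)).card ≤ (sh N (a u) (x u)).card :=
              card_le_card inter_subset_left
            have e7 : (sh N (a u) (x u)).card ≤ 2 * N := by
              rw [card_sh]
              unfold pairs
              refine (card_filter_le _ _).trans ?_
              rw [Nat.card_Icc]
              omega
            exact_mod_cast e6.trans e7
          linarith
        · rw [if_neg h, add_zero]
          exact e4.trans (hpair u hu v hv h)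
      refine (sum_le_sum e3).trans ?_
      rw [sum_add_distrib, sum_const, nsmul_eq_mul, ← sum_filter, sum_const, nsmul_eq_mul]
      have := mul_le_mul_of_nonneg_right (hdeg u hu) (by positivity : (0 : ℝ) ≤ 2 * N)
      linarith
    refine (sum_le_sum e2).trans ?_
    rw [sum_const, nsmul_eq_mul]
    apply le_of_eq
    ring
  obtain ⟨G, hG⟩ : ∃ G : Finset ℕ, G = (Icc 1 (3 * N)).filter (fun m => τ ≤ (rr N U a x m : ℝ)) := ⟨_, rfl⟩
  rw [← hG]
  have hsmall : ∑ m ∈ (Icc 1 (3 * N)).filter (fun m => ¬ τ ≤ (rr N U a x m : ℝ)), (rr N U a x m : ℝ) ≤ U.card * s / 2 := by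
    have h4 : ∑ m ∈ (Icc 1 (3 * N)).filter (fun m => ¬ τ ≤ (rr N U a x m : ℝ)), (rr N U a x m : ℝ) ≤
        ∑ _m ∈ (Icc 1 (3 * N)).filter (fun m => ¬ τ ≤ (rr N U a x m : ℝ)), τ :=
      sum_le_sum fun m hm => (not_le.1 (mem_filter.1 hm).2).le
    refine h4.trans ?_
    rw [sum_const, nsmul_eq_mul]
    have h5 : (((Icc 1 (3 * N)).filter (fun m => ¬ τ ≤ (rr N U a x m : ℝ))).card : ℝ) ≤ 3 * N := by
      have := card_filter_le (Icc 1 (3 * N)) (fun m => ¬ τ ≤ (rr N U a x m : ℝ))
      rw [Nat.card_Icc, Nat.add_sub_cancel] at this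
      exact_mod_cast this
    exact (mul_le_mul_of_nonneg_right h5 hτ0).trans hτ
  have hbig : U.card * s / 2 ≤ ∑ m ∈ G, (rr N U a x m : ℝ) := by
    have h4 := sum_filter_add_sum_filter_not (Icc 1 (3 * N)) (fun m => τ ≤ (rr N U a x m : ℝ))
      (fun m => (rr N U a x m : ℝ))
    rw [← hG] at h4
    linarith
  calc (U.card * s / 2) ^ 2 ≤ (∑ m ∈ G, (rr N U a x m : ℝ)) ^ 2 := pow_le_pow_left₀ (by positivity) hbig 2
    _ ≤ (G.card : ℝ) * ∑ m ∈ G, (rr N U a x m : ℝ) ^ 2 := sq_sum_le_card_mul_sum_sq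
    _ ≤ (G.card : ℝ) * ∑ m ∈ Icc 1 (3 * N), (rr N U a x m : ℝ) ^ 2 := by
        refine mul_le_mul_of_nonneg_left ?_ (Nat.cast_nonneg _)
        refine sum_le_sum_of_subset_of_nonneg ?_ fun _ _ _ => sq_nonneg _
        rw [hG]
        exact filter_subset _ _
    _ ≤ _ := mul_le_mul_of_nonneg_left h3 (Nat.cast_nonneg _)

/-- the degenerate pairs -/
lemma card_deg (U : Finset ℕ) (j : ℕ → ℕ) (W E g : ℕ) (hE : g < E) (hj : ∀ u ∈ U, 1 ≤ j u ∧ j u < W)
    (hU : ∀ u ∈ U, 1 ≤ u) (u : ℕ) :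
    (U.filter (fun v => Deg (fun v => g * (v - 1) * j v) (fun v => E * v * j v) u v)).card ≤ 4 * W := by
  classical
  have key1 : ∀ c : ℤ, (U.filter (fun v => ((E * v * j v : ℕ) : ℤ) = c)).card ≤ W := by
    intro c
    calc (U.filter (fun v => ((E * v * j v : ℕ) : ℤ) = c)).card ≤ (range W).card := by
          apply card_le_card_of_injOn j
          · intro v hv
            rw [mem_coe, mem_filter] at hv
            rw [mem_coe, mem_range]
            exact (hj v hv.1).2
          · intro v hv w hw h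
            rw [mem_coe, mem_filter] at hv hw
            have h1 : E * v * j v = E * w * j w := by
              have := hv.2.trans hw.2.symm
              exact_mod_cast this
            rw [h] at h1
            have h2 := (hj w hw.1).1
            have h3 := Nat.eq_of_mul_eq_mul_right (by omega) h1
            exact Nat.eq_of_mul_eq_mul_left (by omega) h3
      _ = W := card_range W
  have key2 : ∀ c : ℤ, (U.filter (fun v => ((E * v * j v : ℕ) : ℤ) - ((g * (v - 1) * j v : ℕ) : ℤ) = c)).card ≤ W := by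
    intro c
    calc (U.filter (fun v => ((E * v * j v : ℕ) : ℤ) - ((g * (v - 1) * j v : ℕ) : ℤ) = c)).card ≤ (range W).card := by
          apply card_le_card_of_injOn j
          · intro v hv
            rw [mem_coe, mem_filter] at hv
            rw [mem_coe, mem_range]
            exact (hj v hv.1).2
          · intro v hv w hw h
            rw [mem_coe, mem_filter] at hv hw
            have h1 := hv.2.trans hw.2.symm
            rw [h] at h1
            have hv1 := hU v hv.1
            have hw1 := hU w hw.1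
            have hjw := (hj w hw.1).1
            push_cast [Nat.cast_sub hv1, Nat.cast_sub hw1] at h1
            have h2 : ((E : ℤ) - g) * ((v : ℤ) - w) * (j w : ℤ) = 0 := by linear_combination h1
            have h3 : ((E : ℤ) - g) ≠ 0 := by omega
            have h4 : (j w : ℤ) ≠ 0 := by omega
            have h5 : (v : ℤ) - w = 0 := by
              rcases mul_eq_zero.1 h2 with h6 | h6
              · rcases mul_eq_zero.1 h6 with h7 | h7
                · exact absurd h7 h3
                · exact h7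
              · exact absurd h6 h4
            omega
      _ = W := card_range W
  have hsub : U.filter (fun v => Deg (fun v => g * (v - 1) * j v) (fun v => E * v * j v) u v) ⊆
      ((U.filter (fun v => ((E * v * j v : ℕ) : ℤ) = ((E * u * j u : ℕ) : ℤ))) ∪
       (U.filter (fun v => ((E * v * j v : ℕ) : ℤ) - ((g * (v - 1) * j v : ℕ) : ℤ) = ((E * u * j u : ℕ) : ℤ)))) ∪
      ((U.filter (fun v => ((E * v * j v : ℕ) : ℤ) = ((E * u * j u : ℕ) : ℤ) - ((g * (u - 1) * j u : ℕ) : ℤ))) ∪
       (U.filter (fun v => ((E * v * j v : ℕ) : ℤ) - ((g * (v - 1) * j v : ℕ) : ℤ) =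
          ((E * u * j u : ℕ) : ℤ) - ((g * (u - 1) * j u : ℕ) : ℤ)))) := by
    intro v hv
    rw [mem_filter] at hv
    obtain ⟨hvU, hD⟩ := hv
    rw [mem_union, mem_union, mem_union, mem_filter, mem_filter, mem_filter, mem_filter]
    unfold Deg at hD
    rcases hD with h | h | h | h
    · left; left; exact ⟨hvU, by linarith⟩
    · left; right; exact ⟨hvU, by linarith⟩
    · right; left; exact ⟨hvU, by linarith⟩
    · right; right; exact ⟨hvU, by linarith⟩
  refine (card_le_card hsub).trans ?_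
  refine (card_union_le _ _).trans ?_
  have a1 := card_union_le (U.filter (fun v => ((E * v * j v : ℕ) : ℤ) = ((E * u * j u : ℕ) : ℤ)))
    (U.filter (fun v => ((E * v * j v : ℕ) : ℤ) - ((g * (v - 1) * j v : ℕ) : ℤ) = ((E * u * j u : ℕ) : ℤ)))
  have a2 := card_union_le
    (U.filter (fun v => ((E * v * j v : ℕ) : ℤ) = ((E * u * j u : ℕ) : ℤ) - ((g * (u - 1) * j u : ℕ) : ℤ)))
    (U.filter (fun v => ((E * v * j v : ℕ) : ℤ) - ((g * (v - 1) * j v : ℕ) : ℤ) =
      ((E * u * j u : ℕ) : ℤ) - ((g * (u - 1) * j u : ℕ) : ℤ)))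
  have b1 := key1 ((E * u * j u : ℕ) : ℤ)
  have b2 := key2 ((E * u * j u : ℕ) : ℤ)
  have b3 := key1 (((E * u * j u : ℕ) : ℤ) - ((g * (u - 1) * j u : ℕ) : ℤ))
  have b4 := key2 (((E * u * j u : ℕ) : ℤ) - ((g * (u - 1) * j u : ℕ) : ℤ))
  omega

end Pool.Agent.H48.SS
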