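import Mathlib
import Pool.Agent.H48.SS.Moment

/-! The choice of the parameters. -/

set_option autoImplicit false

namespace Pool.Agent.H48.SS

open Finset Filter

/-- the number of the `k ∈ K` for which `m - f k` and `m - f k + φ k` are primes -/
def rk (N : ℕ) (K : Finset ℕ) (f : ℕ → ℕ) (m : ℕ) : ℕ := (K.filter (fun k => m ∈ sh N (Nat.totient k) (f k))).card

lemma phi_sq (W : ℕ) : Nat.totient (P W * P W) = P W * Nat.totient (P W) :=
  totient_mul_rad (P W) (P W) (P_pos W).ne' fun _ _ h => h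

lemma phi_k {W u j : ℕ} (hu : u.Prime) (hWu : W < u) (hj : 1 ≤ j) (hjW : j < W) :
    Nat.totient (P W * P W * u * j) = Nat.totient (P W * P W) * (u - 1) * j := by
  have h1 : P W * P W * u * j = (P W * P W * j) * u := by ring
  have hdvd : ∀ p : ℕ, p.Prime → p ∣ j → p ∣ P W * P W := by
    intro p hp hpj
    exact Dvd.dvd.mul_right (dvd_P hp ((Nat.le_of_dvd (by omega) hpj).trans hjW.le)) _
  have hco : Nat.Coprime (P W * P W * j) u := by
    rw [Nat.coprime_comm, Nat.Prime.coprime_iff_not_dvd hu]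
    intro h
    rcases (Nat.Prime.dvd_mul hu).1 h with h2 | h2
    · rcases (Nat.Prime.dvd_mul hu).1 h2 with h3 | h3 <;>
      · have := of_dvd_P hu h3
        omega
    · have := Nat.le_of_dvd (by omega) h2
      omega
  rw [h1, Nat.totient_mul hco, Nat.totient_prime hu, totient_mul_rad _ j (by omega) hdvd]
  ring

lemma k_inj {W Q u v i j : ℕ} (hQ : 0 < Q) (hu : u.Prime) (hWu : W < u) (hv : v.Prime) (hj : 1 ≤ j) (hjW : j < W)
    (h : Q * u * i = Q * v * j) : u = v := by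
  have h1 : u * i = v * j := by
    have : Q * (u * i) = Q * (v * j) := by rw [← mul_assoc, ← mul_assoc]; exact h
    exact Nat.eq_of_mul_eq_mul_left hQ this
  have h2 : u ∣ v * j := ⟨i, h1.symm⟩
  rcases (Nat.Prime.dvd_mul hu).1 h2 with h3 | h3
  · exact (Nat.prime_dvd_prime_iff_eq hu hv).1 h3
  · have := Nat.le_of_dvd (by omega) h3
    omega

lemma tendsto_facts (B : ℕ) (C₃ C : ℝ) (hC₃ : 1 ≤ C₃) : ∀ᶠ N : ℕ in atTop,
    8 ≤ Real.log N ∧ C ≤ Real.log (Real.log N) ∧ 1 ≤ Real.log (Real.log N) ∧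
    Real.log (Real.log N) ≤ Real.sqrt (Real.log N) ∧
    (3 + (B + 1) * Real.log (Real.log N)) * Real.log (Real.log N) ≤ Real.log N ∧
    C₃ * Real.log N / Real.log (Real.log N) + 1 ≤ Real.log N ∧ C ≤ Real.log N ∧
    Real.log (Real.log N) * (8 * (B : ℝ) + 8) ≤ Real.log N := by
  have tN : Tendsto (fun N : ℕ => (N : ℝ)) atTop atTop := tendsto_natCast_atTop_atTop
  have tL : Tendsto (fun N : ℕ => Real.log (N : ℝ)) atTop atTop := Real.tendsto_log_atTop.comp tN
  have tLL : Tendsto (fun N : ℕ => Real.log (Real.log (N : ℝ))) atTop atTop := Real.tendsto_log_atTop.comp tL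
  have h1 : ∀ᶠ L : ℝ in atTop, Real.log L ≤ Real.sqrt L := by
    have h := (isLittleO_log_rpow_atTop (by norm_num : (0 : ℝ) < 1 / 2)).bound (by norm_num : (0 : ℝ) < 1)
    filter_upwards [h, eventually_ge_atTop 1] with L hL hL1
    rw [one_mul, Real.norm_of_nonneg (Real.log_nonneg hL1), Real.norm_of_nonneg (by positivity),
      ← Real.sqrt_eq_rpow] at hL
    exact hL
  have h2 : ∀ᶠ L : ℝ in atTop, Real.log L ^ 2 * (B + 4) ≤ L := by
    have h := (Real.isLittleO_pow_log_id_atTop (n := 2)).bound (by positivity : (0 : ℝ) < 1 / (B + 4))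
    filter_upwards [h, eventually_ge_atTop 1] with L hL hL1
    rw [Real.norm_of_nonneg (by positivity), id, Real.norm_of_nonneg (by linarith)] at hL
    rw [one_div, inv_mul_eq_div, le_div_iff₀ (by positivity)] at hL
    exact hL
  have h3 : ∀ᶠ L : ℝ in atTop, Real.log L * (8 * (B : ℝ) + 8) ≤ L := by
    have h := (Real.isLittleO_log_id_atTop).bound (by positivity : (0 : ℝ) < 1 / (8 * (B : ℝ) + 8))
    filter_upwards [h, eventually_ge_atTop 1] with L hL hL1
    rw [Real.norm_of_nonneg (Real.log_nonneg hL1), id, Real.norm_of_nonneg (by linarith)] at hL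
    rw [one_div, inv_mul_eq_div, le_div_iff₀ (by positivity)] at hL
    exact hL
  filter_upwards [tL.eventually_ge_atTop 8, tLL.eventually_ge_atTop C, tLL.eventually_ge_atTop 1,
    tL.eventually h1, tL.eventually h2, tL.eventually_ge_atTop C, tLL.eventually_ge_atTop (2 * C₃), tL.eventually h3]
    with N a1 a2 a3 a4 a5 a6 a7 a8
  refine ⟨a1, a2, a3, a4, ?_, ?_, a6, a8⟩
  · have hB : (0 : ℝ) ≤ B := Nat.cast_nonneg _
    calc (3 + (B + 1) * Real.log (Real.log N)) * Real.log (Real.log N) ≤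
        (3 * Real.log (Real.log N) + (B + 1) * Real.log (Real.log N)) * Real.log (Real.log N) := by gcongr; linarith
      _ = Real.log (Real.log N) ^ 2 * (B + 4) := by ring
      _ ≤ _ := a5
  · have h4 : C₃ * Real.log N / Real.log (Real.log N) ≤ Real.log N / 2 := by
      rw [div_le_iff₀ (by linarith)]
      nlinarith
    linarith

lemma card_U (B : ℕ) (hB : 1 ≤ B) : ∀ᶠ N : ℕ in atTop, ∀ W : ℕ, (W : ℝ) ≤ Real.log N →
    Real.log N ^ (B + 1) ≤
      (((Icc 1 ⌊Real.log N ^ (B + 2)⌋₊).filter (fun u => u.Prime ∧ W < u)).card : ℝ) := by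
  classical
  have tN : Tendsto (fun N : ℕ => (N : ℝ)) atTop atTop := tendsto_natCast_atTop_atTop
  have tL : Tendsto (fun N : ℕ => Real.log (N : ℝ)) atTop atTop := Real.tendsto_log_atTop.comp tN
  have tY : Tendsto (fun N : ℕ => ⌊Real.log (N : ℝ) ^ (B + 2)⌋₊) atTop atTop :=
    tendsto_nat_floor_atTop.comp ((tendsto_pow_atTop (by omega)).comp tL)
  filter_upwards [tY.eventually Pool.Agent.Y886.PP.pi_lower, tendsto_facts (B + 2) 1 8 le_rfl,
    tY.eventually_ge_atTop 3] with N hpi hf hY3 W hW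
  obtain ⟨hL, -, hLL, -, -, -, -, h8⟩ := hf
  obtain ⟨Y, hY⟩ : ∃ Y : ℕ, Y = ⌊Real.log (N : ℝ) ^ (B + 2)⌋₊ := ⟨_, rfl⟩
  rw [← hY] at hpi hY3 ⊢
  have hL0 : 0 < Real.log (N : ℝ) := by linarith
  have hYr : Real.log (N : ℝ) ^ (B + 2) - 1 < Y := by
    rw [hY]
    exact Nat.sub_one_lt_floor _
  have hYle : (Y : ℝ) ≤ Real.log (N : ℝ) ^ (B + 2) := by
    rw [hY]
    exact Nat.floor_le (by positivity)
  have hY3' : (3 : ℝ) ≤ Y := by exact_mod_cast hY3
  have hlY : Real.log Y ≤ (B + 2) * Real.log (Real.log N) := by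
    have := Real.log_le_log (by linarith) hYle
    rw [Real.log_pow] at this
    push_cast at this
    exact this
  have hlY0 : 0 < Real.log (Y : ℝ) := Real.log_pos (by linarith)
  have h1 : Nat.primeCounting Y ≤ ((Icc 1 Y).filter (fun u => u.Prime ∧ W < u)).card + W := by
    have h2 : Nat.primeCounting Y = ((Icc 1 Y).filter Nat.Prime).card := by
      rw [Nat.primeCounting, Nat.primeCounting', Nat.count_eq_card_filter_range]
      congr 1
      ext p
      simp only [mem_filter, mem_range, mem_Icc]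
      constructor
      · rintro ⟨h1, h2⟩
        exact ⟨⟨h2.one_lt.le, by omega⟩, h2⟩
      · rintro ⟨⟨-, h1⟩, h2⟩
        exact ⟨by omega, h2⟩
    rw [h2]
    have h3 : (Icc 1 Y).filter Nat.Prime ⊆ (Icc 1 Y).filter (fun u => u.Prime ∧ W < u) ∪ Icc 1 W := by
      intro p hp
      rw [mem_filter, mem_Icc] at hp
      rw [mem_union, mem_filter, mem_Icc, mem_Icc]
      by_cases h : p ≤ W
      · exact Or.inr ⟨hp.1.1, h⟩
      · exact Or.inl ⟨hp.1, hp.2, by omega⟩
    have h4 := (card_le_card h3).trans (card_union_le _ _)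
    rw [Nat.card_Icc, Nat.add_sub_cancel] at h4
    exact h4
  have h2 : (Nat.primeCounting Y : ℝ) ≤ ((Icc 1 Y).filter (fun u => u.Prime ∧ W < u)).card + W := by
    exact_mod_cast h1
  -- `Y / (2 log Y) ≥ 2 L ^ (B + 1)`
  have h3 : 2 * Real.log N ^ (B + 1) ≤ (Y : ℝ) / (2 * Real.log Y) := by
    rw [le_div_iff₀ (by positivity)]
    have h4 : 2 * Real.log N ^ (B + 1) * (2 * Real.log Y) ≤
        Real.log N ^ (B + 1) * (4 * ((B + 2) * Real.log (Real.log N))) := by
      calc 2 * Real.log N ^ (B + 1) * (2 * Real.log Y) = Real.log N ^ (B + 1) * (4 * Real.log Y) := by ring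
        _ ≤ _ := by gcongr
    have h5 : 4 * ((B + 2) * Real.log (Real.log N)) ≤ Real.log N / 2 := by
      push_cast at h8
      nlinarith
    have h6 : Real.log N ^ (B + 1) * (4 * ((B + 2) * Real.log (Real.log N))) ≤ Real.log N ^ (B + 1) * (Real.log N / 2) := by
      gcongr
    have h7 : Real.log N ^ (B + 1) * (Real.log N / 2) = Real.log N ^ (B + 2) / 2 := by ring
    have h9 : (2 : ℝ) ≤ Real.log N ^ (B + 2) := by
      calc (2 : ℝ) ≤ Real.log N ^ 1 := by rw [pow_one]; linarith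
        _ ≤ _ := pow_le_pow_right₀ (by linarith) (by omega)
    linarith
  have h4 : Real.log N ≤ Real.log N ^ (B + 1) := by
    calc Real.log (N : ℝ) = Real.log N ^ 1 := (pow_one _).symm
      _ ≤ _ := pow_le_pow_right₀ (by linarith) (by omega)
  linarith

theorem core : ∃ c C₂ : ℝ, 0 < c ∧ 0 < C₂ ∧ ∀ A : ℕ, ∀ᶠ N : ℕ in atTop, ∃ K : Finset ℕ,
    (∀ k ∈ K, 4 ∣ k ∧ 0 < k ∧ (k : ℝ) ≤ Real.exp (C₂ * Real.log N / Real.log (Real.log N))) ∧
    ∀ f : ℕ → ℕ, (f = (fun k => k / 4) ∨ f = (fun k => 2 * k)) →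
      c * N / Real.log (Real.log N) ^ 2 ≤
        (((Icc 1 (3 * N)).filter (fun m => Real.log N ^ A ≤ (rk N K f m : ℝ))).card : ℝ) := by
  classical
  obtain ⟨C₁, c₀, hC₁, hc₀, hpig⟩ := pigeon
  obtain ⟨Cp, hCp, hpb⟩ := pair_bound
  obtain ⟨Cf, hCf, hphi⟩ := phi_P
  obtain ⟨C₃, hC₃⟩ : ∃ C₃ : ℝ, C₃ = 2 * C₁ + 2 := ⟨_, rfl⟩
  have hC₃1 : 1 ≤ C₃ := by rw [hC₃]; linarith
  refine ⟨c₀ ^ 2 / (16 * (Cp + 1)), 3 * C₃ + 1, by positivity, by positivity, fun A => ?_⟩
  have tN : Tendsto (fun N : ℕ => (N : ℝ)) atTop atTop := tendsto_natCast_atTop_atTop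
  filter_upwards [hpig, hpb, tendsto_facts (A + 8) C₃ (16 * Cf + 16 * (3 * C₃ + 1) + 12 / c₀ + 8) hC₃1,
    card_U (A + 6) (by omega), eventually_ge_atTop 16] with N hpig hpb hf hU hN16
  obtain ⟨hL, hLLC, hLL1, hLLs, hLL2, hWL, hLC, -⟩ := hf
  obtain ⟨L, hLdef⟩ : ∃ L : ℝ, L = Real.log (N : ℝ) := ⟨_, rfl⟩
  obtain ⟨LL, hLLdef⟩ : ∃ LL : ℝ, LL = Real.log L := ⟨_, rfl⟩
  rw [← hLdef] at hpig hpb hL hLLC hLL1 hLLs hLL2 hWL hLC hU ⊢
  rw [← hLLdef] at hpb hLLC hLL1 hLLs hLL2 hWL ⊢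
  have hc₀' : 0 < 12 / c₀ := by positivity
  have hLL0 : 0 < LL := by linarith
  have hL0 : 0 < L := by linarith
  have hN16' : (16 : ℝ) ≤ N := by exact_mod_cast hN16
  have hN0 : (0 : ℝ) < N := by linarith
  -- the parameter `W`
  obtain ⟨W, hW⟩ : ∃ W : ℕ, W = ⌈C₃ * L / LL⌉₊ := ⟨_, rfl⟩
  have hW1 : C₃ * L / LL ≤ W := by rw [hW]; exact Nat.le_ceil _
  have hW2 : (W : ℝ) ≤ C₃ * L / LL + 1 := by rw [hW]; exact (Nat.ceil_lt_add_one (by positivity)).le
  have hW3 : (W : ℝ) ≤ L := hW2.trans hWL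
  have hsqL : Real.sqrt L * Real.sqrt L = L := Real.mul_self_sqrt hL0.le
  have hsqL0 : 0 < Real.sqrt L := Real.sqrt_pos.2 hL0
  have hW4 : 2 * Real.sqrt L ≤ W := by
    refine le_trans ?_ hW1
    rw [le_div_iff₀ hLL0]
    have : Real.sqrt L * LL ≤ L := by nlinarith
    have h2 : 2 ≤ C₃ := by rw [hC₃]; linarith
    nlinarith
  have hW5 : LL / 2 ≤ Real.log W := by
    have h1 : Real.log (Real.sqrt L) = LL / 2 := by rw [Real.log_sqrt hL0.le, hLLdef]
    rw [← h1]
    exact Real.log_le_log hsqL0 (by linarith)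
  have hWr : (3 : ℝ) ≤ W := by
    have : (2 : ℝ) ≤ Real.sqrt L := by
      rw [Real.le_sqrt' (by norm_num : (0 : ℝ) < 2)]
      linarith
    linarith
  have hW6 : 3 ≤ W := by exact_mod_cast hWr
  have hW7 : C₁ * L ≤ W * Real.log W := by
    calc C₁ * L ≤ C₃ * L / 2 := by rw [hC₃]; nlinarith
      _ = (C₃ * L / LL) * (LL / 2) := by field_simp
      _ ≤ W * Real.log W := by gcongr
  -- the modulus
  obtain ⟨Q, hQ⟩ : ∃ Q : ℕ, Q = P W * P W := ⟨_, rfl⟩
  have hP0 := P_pos W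
  have hQ0 : 0 < Q := by rw [hQ]; positivity
  have hlog4 : Real.log 4 ≤ 14 / 10 := by
    have : Real.log 4 = 2 * Real.log 2 := by
      rw [show (4 : ℝ) = 2 ^ 2 by norm_num, Real.log_pow]; norm_num
    have := Real.log_two_lt_d9
    linarith
  have hPexp : (P W : ℝ) ≤ Real.exp (14 / 10 * W) := by
    have h1 : ((P W : ℕ) : ℝ) ≤ ((4 ^ W : ℕ) : ℝ) := Nat.cast_le.2 (P_le W)
    push_cast at h1
    refine h1.trans ?_
    rw [← Real.log_le_iff_le_exp (by positivity), Real.log_pow]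
    have : (0 : ℝ) ≤ W := Nat.cast_nonneg _
    nlinarith
  obtain ⟨X, hX⟩ : ∃ X : ℝ, X = Real.exp ((3 * C₃ + 1) * L / LL) := ⟨_, rfl⟩
  rw [← hX]
  obtain ⟨Y, hY⟩ : ∃ Y : ℕ, Y = ⌊L ^ (A + 6 + 2)⌋₊ := ⟨_, rfl⟩
  rw [← hY] at hU
  have hYle : (Y : ℝ) ≤ L ^ (A + 8) := by
    rw [hY]
    exact Nat.floor_le (by positivity)
  have hQYW : (Q : ℝ) * Y * W ≤ X := by
    have h1 : (Q : ℝ) ≤ Real.exp (28 / 10 * W) := by
      rw [hQ]
      push_cast
      calc (P W : ℝ) * P W ≤ Real.exp (14 / 10 * W) * Real.exp (14 / 10 * W) := by gcongr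
        _ = Real.exp (28 / 10 * W) := by rw [← Real.exp_add]; congr 1; ring
    have h2 : (Y : ℝ) * W ≤ Real.exp ((A + 9) * LL) := by
      calc (Y : ℝ) * W ≤ L ^ (A + 8) * L := by gcongr
        _ = L ^ (A + 9) := by ring
        _ = Real.exp ((A + 9) * LL) := by
          rw [hLLdef, mul_comm, Real.exp_mul, Real.exp_log hL0]
          have : ((A : ℝ) + 9) = ((A + 9 : ℕ) : ℝ) := by push_cast; ring
          rw [this, Real.rpow_natCast]
    calc (Q : ℝ) * Y * W = Q * (Y * W) := by ring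
      _ ≤ Real.exp (28 / 10 * W) * Real.exp ((A + 9) * LL) := by gcongr
      _ = Real.exp (28 / 10 * W + (A + 9) * LL) := by rw [Real.exp_add]
      _ ≤ X := by
        rw [hX]
        apply Real.exp_le_exp.2
        have h3 : 28 / 10 * (W : ℝ) ≤ 28 / 10 * (C₃ * L / LL) + 28 / 10 := by linarith
        have h4 : 3 + (A + 9) * LL ≤ L / LL := by
          rw [le_div_iff₀ hLL0]
          push_cast at hLL2
          have e : ((A : ℝ) + 8 + 1) = A + 9 := by ring
          rw [e] at hLL2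
          exact hLL2
        have h5 : (3 * C₃ + 1) * L / LL = 3 * (C₃ * L / LL) + L / LL := by ring
        rw [h5]
        have h6 : 0 ≤ C₃ * L / LL := by positivity
        linarith
  have hXN : 2 * X ≤ Real.sqrt N := by
    have h1 : X ≤ Real.exp (L / 4) := by
      rw [hX]
      apply Real.exp_le_exp.2
      rw [div_le_div_iff₀ hLL0 (by norm_num)]
      have : 4 * (3 * C₃ + 1) ≤ LL := by linarith
      nlinarith
    have h2 : Real.exp (L / 2) = Real.sqrt N := by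
      rw [hLdef, Real.sqrt_eq_rpow, Real.rpow_def_of_pos hN0]
      congr 1
      ring
    rw [← h2]
    have h3 : Real.exp (L / 2) = Real.exp (L / 4) * Real.exp (L / 4) := by
      rw [← Real.exp_add]; congr 1; ring
    have h4 : 2 ≤ Real.exp (L / 4) := by
      have := Real.add_one_le_exp (L / 4)
      linarith
    rw [h3]
    have := Real.exp_pos (L / 4)
    nlinarith
  have hsqN : Real.sqrt N ≤ N := by
    have h1 : 1 ≤ Real.sqrt (N : ℝ) := by
      rw [Real.one_le_sqrt]; linarith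
    have h2 : Real.sqrt N * Real.sqrt N = N := Real.mul_self_sqrt hN0.le
    nlinarith
  obtain ⟨U, hUdef⟩ : ∃ U : Finset ℕ, U = (Icc 1 Y).filter (fun u => u.Prime ∧ W < u) := ⟨_, rfl⟩
  have hUc : L ^ (A + 7) ≤ (U.card : ℝ) := by
    rw [hUdef]
    exact hU W hW3
  have hUmem : ∀ u ∈ U, u.Prime ∧ W < u ∧ u ≤ Y := by
    intro u hu
    rw [hUdef, mem_filter, mem_Icc] at hu
    exact ⟨hu.2.1, hu.2.2, hu.1.2⟩
  obtain ⟨g, hg⟩ : ∃ g : ℕ, g = Nat.totient Q := ⟨_, rfl⟩
  have hgQ : g ≤ Q := by rw [hg]; exact Nat.totient_le Q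
  have hg0 : 0 < g := by rw [hg]; exact Nat.totient_pos.2 hQ0
  have hPg : P W ∣ g := by
    rw [hg, hQ, phi_sq]
    exact Dvd.intro _ rfl
  have hPQ : P W ≤ Q := by rw [hQ]; exact Nat.le_mul_of_pos_left _ hP0
  have hW1r : (1 : ℝ) ≤ W := by linarith
  have hchoose : ∀ u ∈ U, ∃ j, 1 ≤ j ∧ j < W ∧
      c₀ * N * Real.log W / L ^ 2 ≤ ((pairs (2 * N) (g * (u - 1) * j)).card : ℝ) := by
    intro u hu
    obtain ⟨h1, h2, h3⟩ := hUmem u hu
    have hu2 := h1.two_le
    have h4 : (Q : ℝ) * Y ≤ Q * Y * W := by nlinarith [mul_nonneg (Nat.cast_nonneg (α := ℝ) Q) (Nat.cast_nonneg (α := ℝ) Y)]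
    have h5 : ((g * (u - 1) : ℕ) : ℝ) ≤ (Q : ℝ) * Y := by
      have : g * (u - 1) ≤ Q * Y := Nat.mul_le_mul hgQ (by omega)
      exact_mod_cast this
    refine hpig W (g * (u - 1)) hW6 hW7 (Dvd.dvd.mul_right hPg _) ?_ ?_ ?_
    · calc ((g * (u - 1) : ℕ) : ℝ) * W ≤ (Q : ℝ) * Y * W := by gcongr
        _ ≤ X := hQYW
        _ ≤ Real.sqrt N := by
          have : 0 < X := by rw [hX]; exact Real.exp_pos _
          linarith
    · have h6 : (1 : ℝ) ≤ Y := by exact_mod_cast (by omega : 1 ≤ Y)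
      have h7 : (P W : ℝ) ≤ N := by
        calc (P W : ℝ) ≤ Q := by exact_mod_cast hPQ
          _ ≤ Q * Y := by nlinarith [Nat.cast_nonneg (α := ℝ) Q]
          _ ≤ Q * Y * W := h4
          _ ≤ X := hQYW
          _ ≤ N := by
            have : 0 < X := by rw [hX]; exact Real.exp_pos _
            linarith
      exact_mod_cast h7
    · exact Nat.mul_pos hg0 (by omega)
  choose! j hj1 hj2 hj3 using hchoose
  have hkk : ∀ u ∈ U, Nat.totient (Q * u * j u) = g * (u - 1) * j u := by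
    intro u hu
    obtain ⟨h1, h2, h3⟩ := hUmem u hu
    rw [hg, hQ]
    exact phi_k h1 h2 (hj1 u hu) (hj2 u hu)
  have hkX : ∀ u ∈ U, ((Q * u * j u : ℕ) : ℝ) ≤ X := by
    intro u hu
    obtain ⟨h1, h2, h3⟩ := hUmem u hu
    have h4 := hj2 u hu
    push_cast
    have h5 : (u : ℝ) ≤ Y := by exact_mod_cast h3
    have h6 : (j u : ℝ) ≤ W := by exact_mod_cast h4.le
    calc (Q : ℝ) * u * j u ≤ Q * Y * W := by gcongr
      _ ≤ X := hQYW
  have h2P : 2 ∣ P W := dvd_P Nat.prime_two (by omega)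
  have h4Q : 4 ∣ Q := by
    rw [hQ]
    exact mul_dvd_mul h2P h2P
  obtain ⟨Q₁, hQ₁⟩ := h4Q
  refine ⟨U.image (fun u => Q * u * j u), ?_, ?_⟩
  · intro k hk
    rw [mem_image] at hk
    obtain ⟨u, hu, rfl⟩ := hk
    obtain ⟨h1, h2, h3⟩ := hUmem u hu
    refine ⟨?_, ?_, hkX u hu⟩
    · exact Dvd.dvd.mul_right (Dvd.dvd.mul_right ⟨Q₁, hQ₁⟩ _) _
    · have := hj1 u hu
      have := h1.pos
      positivity
  intro f hf
  -- the slope
  obtain ⟨E, hE1, hE2, hE3⟩ : ∃ E : ℕ, g < E ∧ E ≤ 2 * Q ∧ ∀ u : ℕ, f (Q * u * j u) = E * u * j u := by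
    rcases hf with hf | hf
    · refine ⟨Q₁, ?_, by omega, ?_⟩
      · have h1 : (g : ℝ) < Q₁ := by
          have h2 : (g : ℝ) = P W * (P W).totient := by
            rw [hg, hQ, phi_sq]
            push_cast
            ring
          have h3 := hphi W hW6
          have h4 : (Q₁ : ℝ) = P W * P W / 4 := by
            have : ((4 * Q₁ : ℕ) : ℝ) = ((P W * P W : ℕ) : ℝ) := by rw [← hQ₁, hQ]
            push_cast at this
            linarith
          have h5 : Cf * P W / Real.log W < P W / 4 := by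
            have hlW : 0 < Real.log (W : ℝ) := by linarith
            rw [div_lt_div_iff₀ hlW (by norm_num)]
            have h6 : Cf * 4 < Real.log W := by linarith
            have hPr : (0 : ℝ) < P W := by exact_mod_cast hP0
            nlinarith
          rw [h2, h4]
          have hPr : (0 : ℝ) < P W := by exact_mod_cast hP0
          nlinarith
        exact_mod_cast h1
      · intro u
        rw [hf]
        show Q * u * j u / 4 = Q₁ * u * j u
        rw [hQ₁]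
        have : 4 * Q₁ * u * j u = 4 * (Q₁ * u * j u) := by ring
        rw [this, Nat.mul_div_cancel_left _ (by norm_num)]
    · refine ⟨2 * Q, by omega, le_rfl, ?_⟩
      intro u
      rw [hf]
      show 2 * (Q * u * j u) = 2 * Q * u * j u
      ring
  have hrk : ∀ m, rk N (U.image (fun u => Q * u * j u)) f m =
      rr N U (fun v => g * (v - 1) * j v) (fun v => E * v * j v) m := by
    intro m
    unfold rk rr
    have h1 : (U.image (fun u => Q * u * j u)).filter (fun k => m ∈ sh N (Nat.totient k) (f k)) =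
        (U.filter (fun u => m ∈ sh N (g * (u - 1) * j u) (E * u * j u))).image (fun u => Q * u * j u) := by
      ext k
      simp only [mem_filter, mem_image]
      constructor
      · rintro ⟨⟨u, hu, rfl⟩, h⟩
        rw [hkk u hu, hE3 u] at h
        exact ⟨u, ⟨hu, h⟩, rfl⟩
      · rintro ⟨u, ⟨hu, h⟩, rfl⟩
        rw [← hkk u hu, ← hE3 u] at h
        exact ⟨⟨u, hu, rfl⟩, h⟩
    rw [h1, card_image_of_injOn]
    intro u hu v hv h
    rw [mem_coe, mem_filter] at hu hv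
    have hu' := hUmem u hu.1
    have hv' := hUmem v hv.1
    exact k_inj hQ0 hu'.1 hu'.2.1 hv'.1 (hj1 v hv.1) (hj2 v hv.1) h
  simp only [hrk]
  -- the second moment
  have hxN : ∀ u ∈ U, E * u * j u ≤ N := by
    intro u hu
    have h1 : ((E * u * j u : ℕ) : ℝ) ≤ N := by
      have h2 : ((E * u * j u : ℕ) : ℝ) ≤ 2 * ((Q * u * j u : ℕ) : ℝ) := by
        have : E * u * j u ≤ 2 * (Q * u * j u) := by
          calc E * u * j u ≤ 2 * Q * u * j u := by gcongr
            _ = _ := by ring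
        exact_mod_cast this
      have := hkX u hu
      linarith
    exact_mod_cast h1
  have haN : ∀ u ∈ U, g * (u - 1) * j u ≤ N ∧ 0 < g * (u - 1) * j u := by
    intro u hu
    obtain ⟨h1, h2, h3⟩ := hUmem u hu
    have hu2 := h1.two_le
    have hj1' := hj1 u hu
    constructor
    · have h1 : ((g * (u - 1) * j u : ℕ) : ℝ) ≤ N := by
        have h2 : ((g * (u - 1) * j u : ℕ) : ℝ) ≤ ((Q * u * j u : ℕ) : ℝ) := by
          have : g * (u - 1) * j u ≤ Q * u * j u := by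
            gcongr
            omega
          exact_mod_cast this
        have := hkX u hu
        have : 0 < X := by rw [hX]; exact Real.exp_pos _
        linarith
      exact_mod_cast h1
    · exact Nat.mul_pos (Nat.mul_pos hg0 (by omega)) (by omega)
  obtain ⟨s, hs⟩ : ∃ s : ℝ, s = c₀ * N * LL / (2 * L ^ 2) := ⟨_, rfl⟩
  obtain ⟨β, hβ⟩ : ∃ β : ℝ, β = Cp * N * LL ^ 4 / L ^ 4 := ⟨_, rfl⟩
  have hs0 : 0 ≤ s := by rw [hs]; positivity
  have hβ0 : 0 ≤ β := by rw [hβ]; positivity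
  have hU0 : 0 < (U.card : ℝ) := lt_of_lt_of_le (by positivity) hUc
  have hmom := moment (N := N) U (fun v => g * (v - 1) * j v) (fun v => E * v * j v) s β (4 * W) (L ^ A) hs0 hβ0
    hxN
    (by
      intro u hu
      refine le_trans ?_ (hj3 u hu)
      rw [hs, div_le_div_iff₀ (by positivity) (by positivity)]
      have h1 : c₀ * N * LL ≤ c₀ * N * (2 * Real.log W) := by gcongr; linarith
      calc c₀ * N * LL * L ^ 2 ≤ c₀ * N * (2 * Real.log W) * L ^ 2 := by gcongr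
        _ = _ := by ring)
    (by
      intro u hu v hv hnd
      unfold Deg at hnd
      push Not at hnd
      obtain ⟨d1, d2, d3, d4⟩ := hnd
      rw [hβ]
      exact hpb _ _ _ _ (haN u hu).2 (haN v hv).2 (haN u hu).1 (haN v hv).1 (hxN u hu) (hxN v hv) d1 d2 d3 d4)
    (by
      intro u hu
      have := card_deg U j W E g hE1 (fun v hv => ⟨hj1 v hv, hj2 v hv⟩) (fun v hv => (hUmem v hv).1.one_lt.le) u
      exact_mod_cast this)
    (by
      -- `3 N L ^ A ≤ |U| s / 2`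
      rw [hs]
      have h1 : L ^ (A + 7) * (c₀ * N * LL / (2 * L ^ 2)) / 2 ≤ (U.card : ℝ) * (c₀ * N * LL / (2 * L ^ 2)) / 2 := by
        gcongr
      refine le_trans ?_ h1
      have h2 : L ^ (A + 7) * (c₀ * N * LL / (2 * L ^ 2)) / 2 = N * L ^ A * (c₀ * LL * L ^ 5 / 4) := by
        field_simp
        ring
      rw [h2]
      have h3 : 3 ≤ c₀ * LL * L ^ 5 / 4 := by
        have h4 : 12 ≤ c₀ * L := by
          have h5 : 12 / c₀ ≤ L := by
            have : (0 : ℝ) ≤ 16 * Cf + 16 * (3 * C₃ + 1) := by positivity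
            linarith
          rwa [div_le_iff₀ hc₀, mul_comm] at h5
        have h5 : L ≤ L ^ 5 := by
          calc L = L ^ 1 := (pow_one L).symm
            _ ≤ L ^ 5 := pow_le_pow_right₀ (by linarith) (by norm_num)
        have h6 : c₀ * L * 1 ≤ c₀ * L ^ 5 * LL := by gcongr
        have h7 : c₀ * L ^ 5 * LL = c₀ * LL * L ^ 5 := by ring
        linarith
      calc 3 * (N : ℝ) * L ^ A = N * L ^ A * 3 := by ring
        _ ≤ _ := by gcongr)
    (by positivity)
  obtain ⟨G, hG⟩ : ∃ G : Finset ℕ, G = (Icc 1 (3 * N)).filter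
    (fun m => L ^ A ≤ (rr N U (fun v => g * (v - 1) * j v) (fun v => E * v * j v) m : ℝ)) := ⟨_, rfl⟩
  rw [← hG] at hmom ⊢
  have h1 : (U.card : ℝ) ^ 2 * β + U.card * (4 * W * (2 * N)) ≤ U.card ^ 2 * ((Cp + 1) * N * LL ^ 4 / L ^ 4) := by
    have h2 : (U.card : ℝ) * (4 * W * (2 * N)) ≤ U.card ^ 2 * (N / L ^ 4) := by
      have h3 : 8 * L ^ 5 ≤ (U.card : ℝ) := by
        refine le_trans ?_ hUc
        calc 8 * L ^ 5 ≤ L * L ^ 5 := by gcongr
          _ = L ^ 6 := by ring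
          _ ≤ L ^ (A + 7) := pow_le_pow_right₀ (by linarith) (by omega)
      have h4 : 4 * (W : ℝ) * (2 * N) ≤ U.card * (N / L ^ 4) := by
        calc 4 * (W : ℝ) * (2 * N) ≤ 4 * L * (2 * N) := by gcongr
          _ = 8 * L ^ 5 * (N / L ^ 4) := by field_simp; norm_num
          _ ≤ _ := by gcongr
      calc (U.card : ℝ) * (4 * W * (2 * N)) ≤ U.card * (U.card * (N / L ^ 4)) := by gcongr
        _ = _ := by ring
    have h3 : (N : ℝ) / L ^ 4 ≤ N * LL ^ 4 / L ^ 4 := by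
      have : (1 : ℝ) ≤ LL ^ 4 := one_le_pow₀ hLL1
      gcongr
      nlinarith
    have h4 : (U.card : ℝ) ^ 2 * (N / L ^ 4) ≤ U.card ^ 2 * (N * LL ^ 4 / L ^ 4) := by gcongr
    calc (U.card : ℝ) ^ 2 * β + U.card * (4 * W * (2 * N)) ≤
        (U.card : ℝ) ^ 2 * β + U.card ^ 2 * (N * LL ^ 4 / L ^ 4) := by linarith
      _ = _ := by rw [hβ]; ring
  have h2 : (U.card * s / 2) ^ 2 ≤ (G.card : ℝ) * (U.card ^ 2 * ((Cp + 1) * N * LL ^ 4 / L ^ 4)) :=
    hmom.trans (mul_le_mul_of_nonneg_left h1 (Nat.cast_nonneg _))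
  have h3 : (U.card : ℝ) ^ 2 * (s ^ 2 / 4) ≤ U.card ^ 2 * (G.card * ((Cp + 1) * N * LL ^ 4 / L ^ 4)) := by
    calc (U.card : ℝ) ^ 2 * (s ^ 2 / 4) = (U.card * s / 2) ^ 2 := by ring
      _ ≤ _ := h2
      _ = _ := by ring
  have h4 := le_of_mul_le_mul_left h3 (by positivity)
  rw [hs] at h4
  have h5 : (c₀ * N * LL / (2 * L ^ 2)) ^ 2 / 4 = (c₀ ^ 2 / (16 * (Cp + 1)) * N / LL ^ 2) * ((Cp + 1) * N * LL ^ 4 / L ^ 4) := by
    field_simp
    ring
  rw [h5] at h4
  exact le_of_mul_le_mul_right h4 (by positivity)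

end Pool.Agent.H48.SS
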